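import Pool.Agent.Helper12.MA.StB
import Pool.Agent.Helper12.MA.Lib

/-!
# Project MA, module CLS: classification of the neighbours of `v`
-/

set_option autoImplicit false

namespace Pool.Agent.Helper16.MA

open Pool.Agent.Helper12.MA
open Pool.Agent.Helper51.AJ (IsMinor Planar Apex ExMinor Con Tch)
open Pool.Agent.Helper12.NK (rst Kc add cnt Pcy IsFace Cof plus)

/-- Deleting an edge does not depend on the order of its ends. -/
private theorem dl_comm {V : Type} (G : SimpleGraph V) (x y : V) : dl G y x = dl G x y := by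
  ext a b
  simp only [dl]
  constructor
  · rintro ⟨h1, h2, h3⟩
    exact ⟨h1, h3, h2⟩
  · rintro ⟨h1, h2, h3⟩
    exact ⟨h1, h3, h2⟩

/-- Connectedness only depends on the edges inside the set. -/
private theorem con_iff {V : Type} [Finite V] {G H : SimpleGraph V} {S : Set V}
    (h : ∀ a ∈ S, ∀ b ∈ S, (G.Adj a b ↔ H.Adj a b)) : Con G S ↔ Con H S :=
  (nKCA V G Set.univ).2.2.2.2.1 H S h

/-- Faces only depend on the edges inside the set. -/
private theorem face_mono {V : Type} [Finite V] {G H : SimpleGraph V} {U F : Set V}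
    (h : ∀ a ∈ U, ∀ b ∈ U, (G.Adj a b ↔ H.Adj a b)) (hF : IsFace G U F) : IsFace H U F := by
  obtain ⟨m, c, ⟨h1, h2, h3, h4, h5⟩, h6⟩ := hF
  refine ⟨m, c, ⟨h1, h2, h3, ?_, ?_⟩, h6⟩
  · intro i j
    rw [← h4 i j]
    exact (h _ (h3 ⟨i, rfl⟩) _ (h3 ⟨j, rfl⟩)).symm
  · exact (con_iff fun a ha b hb => h a ha.1 b hb.1).1 h5

/-- `k`-connectedness only depends on the edges inside the set. -/
private theorem kc_mono {V : Type} [Finite V] {G H : SimpleGraph V} {U : Set V} {k : ℕ}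
    (h : ∀ a ∈ U, ∀ b ∈ U, (G.Adj a b ↔ H.Adj a b)) (hK : Kc k G U) : Kc k H U :=
  ⟨hK.1, fun X hX => (con_iff fun a ha b hb => h a ha.1 b hb.1).1 (hK.2 X hX)⟩

/-- A face lies in the vertex set. -/
private theorem face_sub {V : Type} {G : SimpleGraph V} {U F : Set V} (hF : IsFace G U F) :
    F ⊆ U := by
  obtain ⟨m, c, h, h6⟩ := hF
  rw [← h6]
  exact h.2.2.1

private theorem compl_pair {V : Type} (x v : V) : ({v}ᶜ : Set V) \ {x} = {x, v}ᶜ := by
  ext a
  simp only [Set.mem_sdiff, Set.mem_compl_iff, Set.mem_singleton_iff, Set.mem_insert_iff, not_or]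
  exact ⟨fun h => ⟨h.2, h.1⟩, fun h => ⟨h.2, h.1⟩⟩

/-- Away from `x` the graphs `dl G x y` and `G` agree. -/
private theorem dl_off {V : Type} {G : SimpleGraph V} {x y v : V} :
    ∀ a ∈ ({x, v}ᶜ : Set V), ∀ b ∈ ({x, v}ᶜ : Set V), ((dl G x y).Adj a b ↔ G.Adj a b) := by
  intro a ha b hb
  simp only [Set.mem_compl_iff, Set.mem_insert_iff, Set.mem_singleton_iff, not_or] at ha hb
  constructor
  · exact fun h => h.1
  · exact fun h => ⟨h, fun h' => ha.1 h'.1, fun h' => hb.1 h'.2⟩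

section
variable {V : Type} [Finite V] {G : SimpleGraph V} {z v p q r r' : V} {f1 f2 f3 f4 : Set V}

private theorem cfg_zv (C : Cfg G z v p q r r' f1 f2 f3 f4) : G.Adj v z :=
  ((C.ds.nb v).2 (Or.inl rfl)).symm

/-- The faces of `P` after the deletion of `p`. -/
private theorem merge (hMRG : StMRG) (hBAS : StBAS) (C : Cfg G z v p q r r' f1 f2 f3 f4) :
    IsFace G {p, v}ᶜ {t | t ≠ p ∧ Cof (dl G p q) {v}ᶜ p t} ∧
    Planar (rst G {p, v}ᶜ) ∧
    (∀ F, IsFace G {p, v}ᶜ F → (IsFace (dl G p q) {v}ᶜ F ∧ p ∉ F) ∨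
      F = {t | t ≠ p ∧ Cof (dl G p q) {v}ᶜ p t}) := by
  have hP : Pn (dl G p q) {v}ᶜ := ⟨(hBAS V G C.bh).2.2.2.2.1 v p q, C.ds.pl⟩
  have hpv : p ∈ ({v}ᶜ : Set V) := fun h => C.ds.ne.1 h.symm
  have hK : Kc 3 (dl G p q) ({v}ᶜ \ {p}) := by
    rw [compl_pair]
    exact kc_mono (fun a ha b hb => (dl_off a ha b hb).symm) ((hBAS V G C.bh).2.1 p v)
  obtain ⟨h1, h2, -⟩ := hMRG V (dl G p q) {v}ᶜ p hP hpv hK
  rw [compl_pair] at h1 h2
  refine ⟨face_mono dl_off h1, ?_, ?_⟩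
  · refine (nKCA V G Set.univ).2.2.2.2.2.1 _ _ ?_ C.ds.pl
    intro a b hab
    have ha := hab.2.1
    have hb := hab.2.2
    refine ⟨(dl_off a ha b hb).2 hab.1, ?_, ?_⟩
    · exact fun h => ha (Or.inr h)
    · exact fun h => hb (Or.inr h)
  · intro F hF
    exact h2 F (face_mono (fun a ha b hb => (dl_off a ha b hb).symm) hF)

/-- The neighbours of `v` other than `z` are not all cofacial with `p`. -/
private theorem notP (hMRG : StMRG) (hBAS : StBAS) (hSVF : StSVF)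
    (C : Cfg G z v p q r r' f1 f2 f3 f4) :
    ¬ ({a | G.Adj v a} \ {z} ⊆ {t | t = p ∨ Cof (dl G p q) {v}ᶜ p t}) := by
  intro h
  obtain ⟨h1, h2, -⟩ := merge hMRG hBAS C
  refine (hSVF V G C.bh).1 v p (fun h => C.ds.ne.1 h.symm) h2 _ h1 ?_
  rintro a ⟨ha, hap⟩
  refine ⟨hap, ?_⟩
  by_cases haz : a = z
  · rw [haz]
    exact ⟨f1, C.i1, C.p1, C.z1⟩
  · rcases h ⟨ha, haz⟩ with h' | h'
    · exact absurd h' hap
    · exact h'

/-- The case `t = p`. -/
private theorem caseP (hMRG : StMRG) (hBAS : StBAS) (hHFA : StHFA)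
    (C : Cfg G z v p q r r' f1 f2 f3 f4) {w : V} {Γ : Set V} (hΓ : IsFace G {p, v}ᶜ Γ)
    (hz : z ∈ Γ) (hN : {a | G.Adj v a} \ {w, p} ⊆ Γ) :
    (∃ F, TH G z v w F) ∨ TP G z v p q w := by
  obtain ⟨-, -, h3⟩ := merge hMRG hBAS C
  obtain ⟨-, hA, hB, -⟩ := hHFA V G z v p q r r' f1 f2 f3 f4 C
  rcases h3 Γ hΓ with ⟨h4, h5⟩ | h4
  · left
    rcases C.all Γ h4 hz with e | e | e | e
    · exact absurd (e ▸ C.p1) h5
    · refine ⟨_, hA, ?_⟩
      rintro a ⟨ha, haw⟩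
      simp only [Set.mem_insert_iff, Set.mem_singleton_iff, not_or] at haw
      refine ⟨?_, haw.1⟩
      by_cases hap : a = p
      · exact Or.inl (hap ▸ C.p1)
      · refine Or.inr (e ▸ hN ⟨ha, ?_⟩)
        simp only [Set.mem_insert_iff, Set.mem_singleton_iff, not_or]
        exact ⟨haw.2, hap⟩
    · refine ⟨_, hB, ?_⟩
      rintro a ⟨ha, haw⟩
      simp only [Set.mem_insert_iff, Set.mem_singleton_iff, not_or] at haw
      refine ⟨?_, haw.1⟩
      by_cases hap : a = p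
      · exact Or.inr (hap ▸ C.p4)
      · refine Or.inl (e ▸ hN ⟨ha, ?_⟩)
        simp only [Set.mem_insert_iff, Set.mem_singleton_iff, not_or]
        exact ⟨haw.2, hap⟩
    · exact absurd (e ▸ C.p4) h5
  · right
    rintro a ⟨ha, haw⟩
    simp only [Set.mem_insert_iff, Set.mem_singleton_iff, not_or] at haw
    by_cases hap : a = p
    · exact Or.inl hap
    · right
      have : a ∈ Γ := hN ⟨ha, by
        simp only [Set.mem_insert_iff, Set.mem_singleton_iff, not_or]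
        exact ⟨haw.2, hap⟩⟩
      rw [h4] at this
      exact this.2

/-- The case of the pair `p, r`. -/
private theorem pairPR (hCRN : StCRN) (hHFA : StHFA) (hOTT : StOTT)
    (C : Cfg G z v p q r r' f1 f2 f3 f4) {w t : V} {Γ : Set V} (tv : t ≠ v) (tz : t ≠ z)
    (tp : t ≠ p) (tq : t ≠ q) (hpl : Planar (rst G {t, v}ᶜ)) (hΓ : IsFace G {t, v}ᶜ Γ)
    (hz : z ∈ Γ) (hp : p ∈ Γ) (hr : r ∈ Γ) (hf : t ∉ f1 → Γ = f1)
    (hN : {a | G.Adj v a} \ {w, t} ⊆ Γ) :
    (∃ F, TH G z v w F) ∨ TP G z v p q w := by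
  have htr : t ≠ r := fun h => face_sub hΓ hr (Or.inl h.symm)
  obtain ⟨-, hA, -, -⟩ := hHFA V G z v p q r r' f1 f2 f3 f4 C
  have hmem : ∀ {a : V}, G.Adj v a → a ∉ ({z, w} : Set V) → a = t ∨ a ∈ Γ := by
    intro a ha haw
    simp only [Set.mem_insert_iff, Set.mem_singleton_iff, not_or] at haw
    by_cases hat : a = t
    · exact Or.inl hat
    · refine Or.inr (hN ⟨ha, ?_⟩)
      simp only [Set.mem_insert_iff, Set.mem_singleton_iff, not_or]
      exact ⟨haw.2, hat⟩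
  rcases hOTT V G z v p q r r' f1 f2 f3 f4 C t tv tz tp tq hpl with h | h | h
  · have h1 : t ∉ f1 := fun h1 =>
      htr ((hCRN V G z v p q r r' f1 f2 f3 f4 C).1 t h1 tz h.2)
    have e := hf h1
    right
    rintro a ⟨ha, haw⟩
    rcases hmem ha haw with h2 | h2
    · exact Or.inr (h2 ▸ h.1)
    · exact Or.inr ⟨f1, C.i1, C.p1, e ▸ h2⟩
  · exact absurd ⟨hp, hr⟩ (h.2 Γ hΓ hz).1
  · have h1 : t ∉ f1 := by
      intro h1
      rcases h.1 with h2 | h2
      · have h3 : t ∈ f1 ∩ f2 := ⟨h1, h2⟩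
        rw [C.x12] at h3
        rcases h3 with h3 | h3
        · exact tz h3
        · exact htr h3
      · have h3 : t ∈ f4 ∩ f1 := ⟨h2, h1⟩
        rw [C.x41] at h3
        rcases h3 with h3 | h3
        · exact tz h3
        · exact tp h3
    have e := hf h1
    rcases h.1 with h2 | h2
    · left
      refine ⟨_, hA, ?_⟩
      rintro a ⟨ha, haw⟩
      refine ⟨?_, fun h => haw (Or.inl h)⟩
      rcases hmem ha haw with h3 | h3
      · exact Or.inr (h3 ▸ h2)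
      · exact Or.inl (e ▸ h3)
    · right
      rintro a ⟨ha, haw⟩
      rcases hmem ha haw with h3 | h3
      · exact Or.inr ⟨f4, C.i4, C.p4, h3 ▸ h2⟩
      · exact Or.inr ⟨f1, C.i1, C.p1, e ▸ h3⟩

/-- The case `Γ = {z, p, q}`. -/
private theorem pairPQ (hHFA : StHFA) (hOTT : StOTT) (hTGA : StTGA)
    (C : Cfg G z v p q r r' f1 f2 f3 f4) {w t : V} {Γ : Set V} (tv : t ≠ v) (tz : t ≠ z)
    (tp : t ≠ p) (tq : t ≠ q) (hpl : Planar (rst G {t, v}ᶜ)) (hΓ : IsFace G {t, v}ᶜ Γ)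
    (hz : z ∈ Γ) (e : Γ = {z, p, q}) (hN : {a | G.Adj v a} \ {w, t} ⊆ Γ) :
    ∃ F, TH G z v w F := by
  obtain ⟨-, hA, hB, -⟩ := hHFA V G z v p q r r' f1 f2 f3 f4 C
  have hmem : ∀ {a : V}, G.Adj v a → a ∉ ({z, w} : Set V) → a = t ∨ a = p ∨ a = q := by
    intro a ha haw
    simp only [Set.mem_insert_iff, Set.mem_singleton_iff, not_or] at haw
    by_cases hat : a = t
    · exact Or.inl hat
    · have h1 : a ∈ Γ := hN ⟨ha, by
        simp only [Set.mem_insert_iff, Set.mem_singleton_iff, not_or]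
        exact ⟨haw.2, hat⟩⟩
      rw [e] at h1
      rcases h1 with h1 | h1 | h1
      · exact absurd h1 haw.1
      · exact Or.inr (Or.inl h1)
      · exact Or.inr (Or.inr h1)
  have ht : (t ∈ f1 ∨ t ∈ f2) ∨ (t ∈ f3 ∨ t ∈ f4) := by
    by_cases htr : t = r
    · exact Or.inl (Or.inl (htr ▸ C.r1))
    by_cases hts : t = r'
    · exact Or.inr (Or.inl (hts ▸ C.s3))
    rcases hOTT V G z v p q r r' f1 f2 f3 f4 C t tv tz tp tq hpl with h | h | h
    · exact absurd e (hTGA V G z v p q r r' f1 f2 f3 f4 C t tv tz htr hts h.1 h.2 Γ hΓ hz).2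
    · rcases h.1 with h1 | h1
      · exact Or.inl (Or.inl h1)
      · exact Or.inr (Or.inl h1)
    · rcases h.1 with h1 | h1
      · exact Or.inl (Or.inr h1)
      · exact Or.inr (Or.inr h1)
  rcases ht with ht | ht
  · refine ⟨_, hA, ?_⟩
    rintro a ⟨ha, haw⟩
    refine ⟨?_, fun h => haw (Or.inl h)⟩
    rcases hmem ha haw with h3 | h3 | h3
    · exact h3 ▸ ht
    · exact Or.inl (h3 ▸ C.p1)
    · exact Or.inr (h3 ▸ C.q2)
  · refine ⟨_, hB, ?_⟩
    rintro a ⟨ha, haw⟩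
    refine ⟨?_, fun h => haw (Or.inl h)⟩
    rcases hmem ha haw with h3 | h3 | h3
    · exact h3 ▸ ht
    · exact Or.inr (h3 ▸ C.p4)
    · exact Or.inl (h3 ▸ C.q3)

end

theorem hCLS : StFNB → StMRG → StBAS → StSVF → StSYM → StCRN → StHFA → StPAI → StOTT → StTGA →
    StCLS := by
  intro _ hMRG hBAS hSVF hSYM hCRN hHFA hPAI hOTT hTGA V _ G z v p q r r' f1 f2 f3 f4 C
  have C1 := (hSYM V G z v p q r r' f1 f2 f3 f4 C).1
  have C2 := (hSYM V G z v p q r r' f1 f2 f3 f4 C).2.1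
  have C3 := (hSYM V G z v p q r' r f4 f3 f2 f1 C2).1
  have hTQ : ∀ w, TP G z v q p w → TQ G z v p q w := by
    intro w h
    unfold TP at h
    rw [dl_comm] at h
    exact h
  refine ⟨?_, ?_, notP hMRG hBAS hSVF C, ?_⟩
  · intro w hw hwz
    obtain ⟨t, ht⟩ := C.bh.hd v w hw
    obtain ⟨hpl, Γ, hΓ, hN, hwΓ⟩ := (hSVF V G C.bh).2 v w t hw ht
    have tv : t ≠ v := ht.1
    have tw : t ≠ w := ht.2.1
    by_cases tz : t = z
    · subst tz
      refine Or.inl ⟨Γ, hΓ, ?_⟩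
      rw [Set.pair_comm]
      exact hN
    have hz : z ∈ Γ := hN ⟨cfg_zv C, by
      simp only [Set.mem_insert_iff, Set.mem_singleton_iff, not_or]
      exact ⟨fun h => hwz h.symm, fun h => tz h.symm⟩⟩
    by_cases tp : t = p
    · subst tp
      rcases caseP hMRG hBAS hHFA C hΓ hz hN with h | h
      · exact Or.inl h
      · exact Or.inr (Or.inl h)
    by_cases tq : t = q
    · subst tq
      rcases caseP hMRG hBAS hHFA C1 hΓ hz hN with h | h
      · exact Or.inl h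
      · exact Or.inr (Or.inr (Or.inl (hTQ w h)))
    rcases hPAI V G z v p q r r' f1 f2 f3 f4 C t Γ tv tz tp tq hpl hΓ hz with
      h | h | h | h | h | h
    · exact Or.inl (pairPQ hHFA hOTT hTGA C tv tz tp tq hpl hΓ hz h.2.2 hN)
    · rcases pairPR hCRN hHFA hOTT C tv tz tp tq hpl hΓ hz h.1 h.2.1 h.2.2.2.2.2 hN with h | h
      · exact Or.inl h
      · exact Or.inr (Or.inl h)
    · rcases pairPR hCRN hHFA hOTT C3 tv tz tq tp hpl hΓ hz h.1 h.2.1 h.2.2.2.2.2 hN with h | h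
      · exact Or.inl h
      · exact Or.inr (Or.inr (Or.inl (hTQ w h)))
    · rcases pairPR hCRN hHFA hOTT C1 tv tz tq tp hpl hΓ hz h.1 h.2.1 h.2.2.2.2.2 hN with h | h
      · exact Or.inl h
      · exact Or.inr (Or.inr (Or.inl (hTQ w h)))
    · rcases pairPR hCRN hHFA hOTT C2 tv tz tp tq hpl hΓ hz h.1 h.2.1 h.2.2.2.2.2 hN with h | h
      · exact Or.inl h
      · exact Or.inr (Or.inl h)
    · refine Or.inr (Or.inr (Or.inr ⟨t, Γ, ⟨tv, tz, tp, tq, ?_, ?_, hpl, hΓ, hz, h.1, h.2.1,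
        h.2.2.1, h.2.2.2⟩, tw, hwΓ, hN⟩))
      · exact fun e => face_sub hΓ h.1 (Or.inl e.symm)
      · exact fun e => face_sub hΓ h.2.1 (Or.inl e.symm)
  · intro F hF
    have hH := (hHFA V G z v p q r r' f1 f2 f3 f4 C).1
    exact (hSVF V G C.bh).1 v z (cfg_zv C).ne' hH.2 F hF
  · have h := notP hMRG hBAS hSVF C1
    rw [dl_comm] at h
    exact h

end Pool.Agent.Helper16.MA
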