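import Pool.Agent.Helper12.MA.StD
import Pool.Agent.Helper12.MA.Lib

/-!
# Project MA, module TOB: steps 2 and 3, two faces
-/

set_option autoImplicit false

namespace Pool.Agent.Helper16.MA

open Pool.Agent.Helper12.MA
open Pool.Agent.Helper51.AJ (IsMinor Planar Apex ExMinor Con Tch)
open Pool.Agent.Helper12.NK (rst Kc add cnt Pcy IsFace Cof plus)

private theorem fsub {V : Type} {G : SimpleGraph V} {U F : Set V} (hF : IsFace G U F) :
    F ⊆ U := by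
  obtain ⟨m, c, h, h6⟩ := hF
  rw [← h6]
  exact h.2.2.1

/-- If `x` has exactly the neighbours `c, a, b` then `a`, `b` are cofacial. -/
private theorem cof_of_three {V : Type} [Finite V] (hFNB : StFNB) {M : SimpleGraph V} {U : Set V}
    {x c a b : V} (hP : Pn M U) (hx : x ∈ U) (ha : a ∈ U)
    (hnb : ∀ t ∈ U, M.Adj x t ↔ t = c ∨ t = a ∨ t = b) (hca : a ≠ c) (hxc : x ≠ c)
    (hxa : x ≠ a) : Cof M U a b := by
  obtain ⟨F1, F2, -, -, F5, -⟩ := hFNB V M U hP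
  have hadj : M.Adj x a := (hnb a ha).2 (Or.inr (Or.inl rfl))
  obtain ⟨F, F', hF, hF', hne, x1, a1, x2, a2, -⟩ := F1 x hx a ha hadj
  obtain ⟨d, d1, d2, d3, -⟩ := F2 x hx a ha hadj F hF x1 a1
  obtain ⟨e, e1, e2, e3, -⟩ := F2 x hx a ha hadj F' hF' x2 a2
  rcases (hnb d (fsub hF d1)).1 d3 with h | h | h
  · rcases (hnb e (fsub hF' e1)).1 e3 with h' | h' | h'
    · exact absurd (F5 F F' hF hF' x a c x1 a1 (h ▸ d1) x2 a2 (h' ▸ e1) hxa hca hxc) hne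
    · exact absurd h' e2
    · exact ⟨F', hF', a2, h' ▸ e1⟩
  · exact absurd h d2
  · exact ⟨F, hF, a1, h ▸ d1⟩

theorem hTOB : StFNB → StEDG → StBAS → StTOB := by
  intro hFNB hEDG hBAS V _ G s x y σ a b hL hK
  obtain ⟨nys, nyσ, nya, nyb, nsσ, nsa, nsb, nσa, nσb, nab⟩ := hL.n1
  have axy : G.Adj x y := (hL.nb y).2 (Or.inl rfl)
  have axs : G.Adj x s := (hL.nb s).2 (Or.inr (Or.inl rfl))
  have axσ : G.Adj x σ := (hL.nb σ).2 (Or.inr (Or.inr (Or.inl rfl)))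
  have axa : G.Adj x a := (hL.nb a).2 (Or.inr (Or.inr (Or.inr (Or.inl rfl))))
  have axb : G.Adj x b := (hL.nb b).2 (Or.inr (Or.inr (Or.inr (Or.inr rfl))))
  have nxy : x ≠ y := axy.ne
  have nxs : x ≠ s := axs.ne
  have nxσ : x ≠ σ := axσ.ne
  have nxa : x ≠ a := axa.ne
  have nxb : x ≠ b := axb.ne
  have hB := hBAS V G hL.bh
  have hmono := fun (H H' : SimpleGraph V) (h : H ≤ H') (h' : Planar H') =>
    (nKCA V G Set.univ).2.2.2.2.2.1 H H' h h'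
  have mem0 : ∀ t : V, t ∈ ({x, s, σ}ᶜ : Set V) ↔ t ≠ x ∧ t ≠ s ∧ t ≠ σ := by
    intro t
    simp only [Set.mem_compl_iff, Set.mem_insert_iff, Set.mem_singleton_iff, not_or, ne_eq]
  have mem1 : ∀ t : V, t ∈ ({s, σ}ᶜ : Set V) ↔ t ≠ s ∧ t ≠ σ := by
    intro t
    simp only [Set.mem_compl_iff, Set.mem_insert_iff, Set.mem_singleton_iff, not_or, ne_eq]
  have mem2 : ∀ t : V, t ∈ ({s}ᶜ : Set V) ↔ t ≠ s := by
    intro t
    simp only [Set.mem_compl_iff, Set.mem_singleton_iff, ne_eq]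
  have ae1 : ∀ c d : V, G.Adj c d → (ae G a b).Adj c d := fun c d h => Or.inl h
  -- step 2
  have hG : Pn G {s, σ}ᶜ := ⟨hB.2.1 s σ, hL.ps⟩
  have hcof : Cof G {s, σ}ᶜ a b := by
    refine cof_of_three hFNB hG ((mem1 x).2 ⟨nxs, nxσ⟩) ((mem1 a).2 ⟨nsa.symm, nσa.symm⟩)
      (c := y) ?_ nya.symm nxy nxa
    intro t ht
    obtain ⟨t1, t2⟩ := (mem1 t).1 ht
    rw [hL.nb t]
    constructor
    · rintro (h | h | h | h | h)
      · exact Or.inl h
      · exact absurd h t1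
      · exact absurd h t2
      · exact Or.inr (Or.inl h)
      · exact Or.inr (Or.inr h)
    · rintro (h | h | h)
      · exact Or.inl h
      · exact Or.inr (Or.inr (Or.inr (Or.inl h)))
      · exact Or.inr (Or.inr (Or.inr (Or.inr h)))
  have hpl1 : Planar (rst (ae G a b) {s, σ}ᶜ) :=
    (hEDG V G {s, σ}ᶜ a b s hG ((mem1 a).2 ⟨nsa.symm, nσa.symm⟩)
      ((mem1 b).2 ⟨nsb.symm, nσb.symm⟩) nab (fun h => ((mem1 s).1 h).1 rfl)).2 hcof
  have hT : Planar (rst (ae G a b) {x, s, σ}ᶜ) := by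
    refine hmono _ _ ?_ hpl1
    intro c d h
    obtain ⟨h1, h2, h3⟩ := h
    exact ⟨h1, (mem1 c).2 ((mem0 c).1 h2).2, (mem1 d).2 ((mem0 d).1 h3).2⟩
  have hΓ1 : ∃ Γ, IsFace (ae G a b) {x, s, σ}ᶜ Γ ∧ a ∈ Γ ∧ b ∈ Γ ∧ y ∈ Γ := by
    have hN : ({y, a, b} : Set V) ⊆ {x, s, σ}ᶜ := by
      intro t ht
      rw [mem0]
      rcases ht with h | h | h
      · rw [h]; exact ⟨nxy.symm, nys, nyσ⟩
      · rw [h]; exact ⟨nxa.symm, nsa.symm, nσa.symm⟩
      · rw [Set.mem_singleton_iff] at h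
        rw [h]; exact ⟨nxb.symm, nsb.symm, nσb.symm⟩
    have hc : 3 ≤ ({y, a, b} : Set V).ncard := by
      rw [Set.ncard_eq_three.2 ⟨y, a, b, nya, nyb, nab, rfl⟩]
    obtain ⟨m, c, h1, h2, -⟩ := nTUT V (ae G a b) {x, s, σ}ᶜ {y, a, b} x hK hN hc
      (fun h => ((mem0 x).1 h).1 rfl) (by
        refine hmono _ _ ?_ hpl1
        have key : ∀ d, d ∈ ({y, a, b} : Set V) → (rst (ae G a b) {s, σ}ᶜ).Adj x d := by
          intro d hd
          obtain ⟨d1, d2, d3⟩ := (mem0 d).1 (hN hd)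
          refine ⟨ae1 _ _ ?_, (mem1 x).2 ⟨nxs, nxσ⟩, (mem1 d).2 ⟨d2, d3⟩⟩
          rcases hd with h | h | h
          · rw [h]; exact axy
          · rw [h]; exact axa
          · rw [Set.mem_singleton_iff] at h
            rw [h]; exact axb
        intro c d h
        rcases h with ⟨h1, h2, h3⟩ | ⟨h1, h2, h3⟩ | ⟨h1, h2, h3⟩
        · exact ⟨h1, (mem1 c).2 ((mem0 c).1 h2).2, (mem1 d).2 ((mem0 d).1 h3).2⟩
        · rw [h1]; exact key d h2
        · rw [h1]; exact (key c h2).symm)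
    exact ⟨Set.range c, ⟨m, c, h1, rfl⟩, h2 (Or.inr (Or.inl rfl)), h2 (Or.inr (Or.inr rfl)),
      h2 (Or.inl rfl)⟩
  -- step 3
  have hP : Pn (dl G x y) {s}ᶜ := ⟨hB.2.2.2.2.1 s x y, hL.sv.2.2⟩
  have hcof2 : Cof (dl G x y) {s}ᶜ a b := by
    refine cof_of_three hFNB hP ((mem2 x).2 nxs) ((mem2 a).2 nsa.symm)
      (c := σ) ?_ nσa.symm nxσ nxa
    intro t ht
    have t1 := (mem2 t).1 ht
    constructor
    · rintro ⟨h, h', -⟩
      rcases (hL.nb t).1 h with h | h | h | h | h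
      · exact absurd ⟨rfl, h⟩ h'
      · exact absurd h t1
      · exact Or.inl h
      · exact Or.inr (Or.inl h)
      · exact Or.inr (Or.inr h)
    · intro h
      have hty : t ≠ y := by
        rintro rfl
        rcases h with h | h | h
        · exact nyσ h
        · exact nya h
        · exact nyb h
      refine ⟨(hL.nb t).2 (Or.inr (Or.inr h)), fun h' => hty h'.2, fun h' => nxy h'.1⟩
  have hpl2 : Planar (rst (ae (dl G x y) a b) {s}ᶜ) :=
    (hEDG V (dl G x y) {s}ᶜ a b s hP ((mem2 a).2 nsa.symm) ((mem2 b).2 nsb.symm) nab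
      (fun h => (mem2 s).1 h rfl)).2 hcof2
  have hσx : (ae (dl G x y) a b).Adj σ x :=
    Or.inl ⟨axσ.symm, fun h => nxσ h.1.symm, fun h => nyσ h.1.symm⟩
  have hcn := (nKCA V (ae (dl G x y) a b) {s}ᶜ).2.2.2.2.2.2.2 σ ((mem2 σ).2 nsσ.symm) x
    ((mem2 x).2 nxs) hσx hpl2
  have hadd : Planar (add (rst (ae G a b) {x, s, σ}ᶜ) σ (({c | G.Adj σ c} \ {x, s}) ∪ {a, b})) := by
    refine hmono _ _ ?_ hcn
    have memU : ∀ t : V, t ≠ s → t ≠ x → t ∈ ({s}ᶜ : Set V) \ {x} :=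
      fun t h1 h2 => ⟨(mem2 t).2 h1, h2⟩
    have key : ∀ d, d ∈ ({c | G.Adj σ c} \ {x, s} : Set V) ∪ {a, b} →
        (rst (cnt (ae (dl G x y) a b) σ x) (({s}ᶜ : Set V) \ {x})).Adj σ d := by
      intro d hd
      rcases hd with ⟨h1, h2⟩ | h | h
      · simp only [Set.mem_insert_iff, Set.mem_singleton_iff, not_or] at h2
        refine ⟨⟨h1.ne, nxσ.symm, h2.1, Or.inl (Or.inl ⟨h1, fun h => nxσ h.1.symm,
          fun h => h2.1 h.2⟩)⟩, memU σ nsσ.symm nxσ.symm, memU d h2.2 h2.1⟩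
      · rw [h]
        exact ⟨⟨nσa, nxσ.symm, nxa.symm, Or.inr (Or.inl ⟨rfl, Or.inl ⟨axa,
          fun h => nya h.2.symm, fun h => nxy h.1⟩⟩)⟩, memU σ nsσ.symm nxσ.symm,
          memU a nsa.symm nxa.symm⟩
      · rw [Set.mem_singleton_iff] at h
        rw [h]
        exact ⟨⟨nσb, nxσ.symm, nxb.symm, Or.inr (Or.inl ⟨rfl, Or.inl ⟨axb,
          fun h => nyb h.2.symm, fun h => nxy h.1⟩⟩)⟩, memU σ nsσ.symm nxσ.symm,
          memU b nsb.symm nxb.symm⟩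
    intro c d h
    rcases h with ⟨h1, h2, h3⟩ | ⟨h1, h2, h3⟩ | ⟨h1, h2, h3⟩
    · obtain ⟨c1, c2, c3⟩ := (mem0 c).1 h2
      obtain ⟨d1, d2, d3⟩ := (mem0 d).1 h3
      refine ⟨⟨h1.ne, c1, d1, Or.inl ?_⟩, memU c c2 c1, memU d d2 d1⟩
      rcases h1 with h1 | h1
      · exact Or.inl ⟨h1, fun h => c1 h.1, fun h => d1 h.2⟩
      · exact Or.inr h1
    · rw [h1]; exact key d h2
    · rw [h1]; exact (key c h2).symm
  refine ⟨hT, hΓ1, hadd, ?_⟩
  have hN : (({c | G.Adj σ c} \ {x, s}) ∪ {a, b} : Set V) ⊆ {x, s, σ}ᶜ := by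
    intro t ht
    rw [mem0]
    rcases ht with ⟨h1, h2⟩ | h | h
    · simp only [Set.mem_insert_iff, Set.mem_singleton_iff, not_or] at h2
      exact ⟨h2.1, h2.2, h1.ne'⟩
    · rw [h]; exact ⟨nxa.symm, nsa.symm, nσa.symm⟩
    · rw [Set.mem_singleton_iff] at h
      rw [h]; exact ⟨nxb.symm, nsb.symm, nσb.symm⟩
  have hc : 3 ≤ (({c | G.Adj σ c} \ {x, s}) ∪ {a, b} : Set V).ncard := by
    have h5 := hB.2.2.2.1 σ
    have h2 : ({x, s} : Set V).ncard ≤ 2 :=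
      (Set.ncard_insert_le x {s}).trans (by rw [Set.ncard_singleton])
    have h3 : {c | G.Adj σ c}.ncard ≤ ({c | G.Adj σ c} \ {x, s}).ncard + ({x, s} : Set V).ncard := by
      have h4 := Set.ncard_le_ncard (s := {c | G.Adj σ c})
        (t := ({c | G.Adj σ c} \ {x, s}) ∪ {x, s}) (by
          intro c hc
          by_cases h : c ∈ ({x, s} : Set V)
          · exact Or.inr h
          · exact Or.inl ⟨hc, h⟩) (Set.toFinite _)
      exact h4.trans (Set.ncard_union_le _ _)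
    have h4 : ({c | G.Adj σ c} \ {x, s}).ncard ≤
        (({c | G.Adj σ c} \ {x, s}) ∪ {a, b} : Set V).ncard :=
      Set.ncard_le_ncard Set.subset_union_left (Set.toFinite _)
    omega
  obtain ⟨m, c, h1, h2, -⟩ := nTUT V (ae G a b) {x, s, σ}ᶜ _ σ hK hN hc
    (fun h => ((mem0 σ).1 h).2.2 rfl) hadd
  exact ⟨Set.range c, ⟨m, c, h1, rfl⟩, h2⟩

end Pool.Agent.Helper16.MA
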